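import Pool.Agent.Helper24.HW.Stmts

/-! Module PCS of hw_mods: three small rotation systems. -/

set_option autoImplicit false

namespace Pool.Agent.Helper94.HW

open Equiv Equiv.Perm Pool.Agent.Helper24.HW Pool.Agent.Helper24.HWPub Pool.Agent.Helper98.Gn

variable {C : Type}

theorem conn_of_sc {M : LM C} (h : ∀ x y, SameCycle M.σ x y) : M.Conn := by
  intro x y
  exact sc_induct (π := M.σ) (fun a b => Relation.EqvGen (fun u v => v = M.σ u ∨ v = M.α u) a b)
    (fun a => Relation.EqvGen.refl a) (fun a b c h1 h2 => Relation.EqvGen.trans a b c h1 h2)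
    (fun z => Relation.EqvGen.rel z _ (Or.inl rfl)) (h x y)

theorem pt_of_sc [DecidableEq C] {M : LM C} (h : ∀ x y, SameCycle M.σ x y) (x0 : M.D) (A : C)
    (hA : ∀ x, M.ℓ x = A) (D : C) : M.pt D = if D = A then 1 else 0 := by
  unfold LM.pt
  split_ifs with hD
  · have h1 : {O : Quotient (SameCycle.setoid M.σ) | ∃ x, M.ℓ x = D ∧ Quotient.mk _ x = O} =
        {Quotient.mk _ x0} := by
      ext O
      constructor
      · rintro ⟨x, _, rfl⟩
        exact Quotient.sound (h x x0)
      · intro hO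
        exact ⟨x0, (hA x0).trans hD.symm, hO.symm⟩
    rw [h1, Set.ncard_singleton]
  · have h1 : {O : Quotient (SameCycle.setoid M.σ) | ∃ x, M.ℓ x = D ∧ Quotient.mk _ x = O} =
        ∅ := by
      ext O
      constructor
      · rintro ⟨x, hx, _⟩
        exact absurd (hx.symm.trans (hA x)) hD
      · intro hO
        exact absurd hO (Set.notMem_empty _)
    rw [h1, Set.ncard_empty]

theorem sc_four1 : ∀ a b : Fin 4, SameCycle (Equiv.addRight (1 : Fin 4)) a b := by
  intro a b
  have h : ∀ a b : Fin 4, ∃ n : Fin 4, ((Equiv.addRight (1 : Fin 4)) ^ (n : ℕ)) a = b := by decide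
  obtain ⟨n, hn⟩ := h a b
  exact ⟨((n : ℕ) : ℤ), by rw [zpow_natCast]; exact hn⟩

theorem sc_four3 : ∀ a b : Fin 4,
    SameCycle (Equiv.addRight (1 : Fin 4) * Equiv.addRight (2 : Fin 4)) a b := by
  intro a b
  have h : ∀ a b : Fin 4, ∃ n : Fin 4,
      ((Equiv.addRight (1 : Fin 4) * Equiv.addRight (2 : Fin 4)) ^ (n : ℕ)) a = b := by decide
  obtain ⟨n, hn⟩ := h a b
  exact ⟨((n : ℕ) : ℤ), by rw [zpow_natCast]; exact hn⟩

theorem sc_two : ∀ a b : Fin 2, SameCycle (swap (0 : Fin 2) 1) a b := by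
  intro a b
  have h : ∀ a b : Fin 2, ∃ n : Fin 2, ((swap (0 : Fin 2) 1) ^ (n : ℕ)) a = b := by decide
  obtain ⟨n, hn⟩ := h a b
  exact ⟨((n : ℕ) : ℤ), by rw [zpow_natCast]; exact hn⟩

theorem PCS : ST_PCS := by
  intro C _ A B
  refine ⟨⟨?_, conn_of_sc sc_four1, pt_of_sc sc_four1 (0 : Fin 4) A fun _ => rfl⟩,
    ⟨?_, conn_of_sc sc_two, pt_of_sc sc_two (0 : Fin 2) A fun _ => rfl⟩, ?_, ?_, fun D => ?_⟩
  · change ((cyc (Equiv.addRight (1 : Fin 4)) : ℕ) : ℤ) - ((Nat.card (Fin 4) / 2 : ℕ) : ℤ) +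
      ((cyc (Equiv.addRight (1 : Fin 4) * Equiv.addRight (2 : Fin 4)) : ℕ) : ℤ) = 0
    rw [cyc_eq_one_iff.2 sc_four1, cyc_eq_one_iff.2 sc_four3, Nat.card_fin]
    norm_num
  · change ((cyc (swap (0 : Fin 2) 1) : ℕ) : ℤ) - ((Nat.card (Fin 2) / 2 : ℕ) : ℤ) +
      ((cyc (swap (0 : Fin 2) 1 * swap (0 : Fin 2) 1) : ℕ) : ℤ) = 2
    rw [cyc_eq_one_iff.2 sc_two, swap_mul_self, cyc_one, Nat.card_fin]
    norm_num
  · change ((cyc (1 : Perm (Fin 2)) : ℕ) : ℤ) - ((Nat.card (Fin 2) / 2 : ℕ) : ℤ) +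
      ((cyc ((1 : Perm (Fin 2)) * swap (0 : Fin 2) 1) : ℕ) : ℤ) = 2
    rw [one_mul, cyc_eq_one_iff.2 sc_two, cyc_one, Nat.card_fin]
    norm_num
  · have h01 : Relation.EqvGen (fun u v : Fin 2 => v = (1 : Perm (Fin 2)) u ∨
        v = (swap (0 : Fin 2) 1) u) 0 1 := Relation.EqvGen.rel _ _ (Or.inr (by decide))
    intro x y
    change Relation.EqvGen (fun u v : Fin 2 => v = (1 : Perm (Fin 2)) u ∨
        v = (swap (0 : Fin 2) 1) u) x y
    have hx : x = (0 : Fin 2) ∨ x = (1 : Fin 2) := by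
      change Fin 2 at x
      fin_cases x
      · exact Or.inl rfl
      · exact Or.inr rfl
    have hy : y = (0 : Fin 2) ∨ y = (1 : Fin 2) := by
      change Fin 2 at y
      fin_cases y
      · exact Or.inl rfl
      · exact Or.inr rfl
    rcases hx with rfl | rfl <;> rcases hy with rfl | rfl
    · exact Relation.EqvGen.refl _
    · exact h01
    · exact Relation.EqvGen.symm _ _ h01
    · exact Relation.EqvGen.refl _
  · have h1 : (LM.edg A B).pt D = {x : Fin 2 | (![A, B] : Fin 2 → C) x = D}.ncard := by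
      have hinj : Function.Injective
          (fun x : Fin 2 => (Quotient.mk (SameCycle.setoid (1 : Perm (Fin 2))) x)) := by
        intro a b h
        exact sameCycle_one.1 (Quotient.exact h)
      rw [← Set.ncard_image_of_injective _ hinj]
      rfl
    rw [h1]
    have h2 : ∀ x : Fin 2, x ∈ {x : Fin 2 | (![A, B] : Fin 2 → C) x = D} ↔
        (x = 0 ∧ D = A) ∨ (x = 1 ∧ D = B) := by
      intro x
      fin_cases x
      · simp [eq_comm]
      · simp [eq_comm]
    by_cases hA : D = A <;> by_cases hB : D = B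
    · have h3 : {x : Fin 2 | (![A, B] : Fin 2 → C) x = D} = Set.univ := by
        ext x
        rw [h2]
        refine ⟨fun _ => Set.mem_univ _, fun _ => ?_⟩
        fin_cases x
        · exact Or.inl ⟨rfl, hA⟩
        · exact Or.inr ⟨rfl, hB⟩
      rw [h3, Set.ncard_univ, Nat.card_fin, if_pos hA, if_pos hB]
    · have h3 : {x : Fin 2 | (![A, B] : Fin 2 → C) x = D} = {0} := by
        ext x
        rw [h2, Set.mem_singleton_iff]
        constructor
        · rintro (h | h)
          · exact h.1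
          · exact absurd h.2 hB
        · intro h
          exact Or.inl ⟨h, hA⟩
      rw [h3, Set.ncard_singleton, if_pos hA, if_neg hB]
    · have h3 : {x : Fin 2 | (![A, B] : Fin 2 → C) x = D} = {1} := by
        ext x
        rw [h2, Set.mem_singleton_iff]
        constructor
        · rintro (h | h)
          · exact absurd h.2 hA
          · exact h.1
        · intro h
          exact Or.inr ⟨h, hB⟩
      rw [h3, Set.ncard_singleton, if_neg hA, if_pos hB]
    · have h3 : {x : Fin 2 | (![A, B] : Fin 2 → C) x = D} = ∅ := by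
        ext x
        rw [h2]
        constructor
        · rintro (h | h)
          · exact absurd h.2 hA
          · exact absurd h.2 hB
        · intro h
          exact absurd h (Set.notMem_empty _)
      rw [h3, Set.ncard_empty, if_neg hA, if_neg hB]

end Pool.Agent.Helper94.HW
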