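import Pool.Agent.Helper94.HW.V2Ra
import Pool.Agent.Helper21.HV.VL
import Pool.Agent.Helper98.HV.PE
import Pool.Agent.Helper77.HW.NE0

/-!
# HW, row V2R0
-/

set_option autoImplicit false

namespace Pool.Agent.Helper94.HW

open MeasureTheory Filter Topology Pool.Agent.Helper95 Pool.Agent.Helper95.PW
open Pool.Agent.Helper95.LN Pool.Agent.Helper95.CF Pool.Agent.Helper95.HV
open Pool.Agent.Helper26.HW

theorem V2R0 (h1 : ST_NBZ) (h2 : ST_FFZ) (h3 : ST_FGZ) (h4 : ST_DIP) (h5 : ST_KK)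
    (h6 : ST_FLD) (h7 : ST_CUT) (h8 : ST_UNS) : ST_V2R0 :=
  V2R0_of (Pool.Agent.Helper94.HV.V2I h1 h2 h3 h4 h5) (Pool.Agent.Helper21.HV.VL h1 h2 h5)
    Pool.Agent.Helper98.HV.PE (Pool.Agent.Helper77.HW.NE0 h6 h7) h5 h6 h7 h8

end Pool.Agent.Helper94.HW
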