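import Pool.Agent.Helper20.HV.A
import Pool.Agent.Helper26.HW.Sub
import Pool.Agent.Helper71.HV.Sub
import Pool.Agent.Helper94.HV.V2I

/-!
# HW, row V2R0 from V2I, VL, PE, NE0, UNS
-/

set_option autoImplicit false

namespace Pool.Agent.Helper94.HW

open MeasureTheory Filter Topology Pool.Agent.Helper95 Pool.Agent.Helper95.PW
open Pool.Agent.Helper95.LN Pool.Agent.Helper95.CF
open Pool.Agent.Helper95.HV Pool.Agent.Helper53.LN Pool.Agent.Helper14.PW Pool.Agent.Helper20.HV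
open Pool.Agent.Helper26.HW
open Pool.Agent.Helper82.PN (pgb_tri)

theorem nrc (c : R3) : Continuous (fun y : R3 => nr (y - c)) := by
  unfold nr
  fun_prop

theorem nrc0 : Continuous (fun y : R3 => nr y) := by
  unfold nr
  fun_prop

theorem pd2_zero {f : R3 → ℝ} {y : R3} {c : ℝ} {i : Fin 3} (h : ∀ᶠ y' in 𝓝 y, pd i f y' = c)
    (l : Fin 3) : pd l (pd i f) y = 0 := by
  have h1 : pd i f =ᶠ[𝓝 y] fun _ => c := h
  show fderiv ℝ (pd i f) y (Pi.single l 1) = 0
  rw [h1.fderiv_eq]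
  simp

theorem out2 {M : ℕ} {X : Fin M → R3} {A : R3 → ℝ} {c : ℝ}
    (hA : ∀ y, (∀ j, c < nr (y - X j)) → ∀ i, pd i A y = 0) {y : R3}
    (hy : ∀ j, c < nr (y - X j)) (l i : Fin 3) : pd l (pd i A) y = 0 := by
  refine pd2_zero (c := 0) ?_ l
  have h1 : ∀ᶠ y' in 𝓝 y, ∀ j, c < nr (y' - X j) :=
    Filter.eventually_all.2 fun j => ((nrc (X j)).tendsto y).eventually_const_lt (hy j)
  exact h1.mono fun y' hy' => hA y' hy' i

theorem in2 {A : R3 → ℝ} {c : R3} {ρ : ℝ} {m : Fin 3}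
    (h : ∀ y, nr (y - c) < ρ → ∀ i, pd i A y = if i = m then 1 else 0) {y : R3}
    (hy : nr (y - c) < ρ) (l i : Fin 3) : pd l (pd i A) y = 0 := by
  refine pd2_zero (c := if i = m then 1 else 0) ?_ l
  have h1 : ∀ᶠ y' in 𝓝 y, nr (y' - c) < ρ := ((nrc c).tendsto y).eventually_lt_const hy
  exact h1.mono fun y' hy' => h y' hy' i

theorem Gin {G : R3 → ℝ} {L : ℝ} {m : Fin 3} (h : ∀ y, nr y ≤ L → G y = y m) {y : R3}
    (hy : nr y < L) (i : Fin 3) : pd i G y = if i = m then 1 else 0 := by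
  have h1 : ∀ᶠ y' in 𝓝 y, nr y' < L := (nrc0.tendsto y).eventually_lt_const hy
  have h2 : G =ᶠ[𝓝 y] fun y' => y' m := h1.mono fun y' hy' => h y' hy'.le
  show fderiv ℝ G y (Pi.single i 1) = _
  rw [h2.fderiv_eq]
  have h3 : HasFDerivAt (fun y' : R3 => y' m)
      (ContinuousLinearMap.proj (R := ℝ) (φ := fun _ : Fin 3 => ℝ) m) y :=
    (ContinuousLinearMap.proj (R := ℝ) (φ := fun _ : Fin 3 => ℝ) m).hasFDerivAt
  rw [h3.fderiv]
  simp [Pi.single_apply, eq_comm]

theorem Gin2 {G : R3 → ℝ} {L : ℝ} {m : Fin 3} (h : ∀ y, nr y ≤ L → G y = y m) {y : R3}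
    (hy : nr y < L) (l i : Fin 3) : pd l (pd i G) y = 0 := by
  refine pd2_zero (c := if i = m then 1 else 0) ?_ l
  have h1 : ∀ᶠ y' in 𝓝 y, nr y' < L := (nrc0.tendsto y).eventually_lt_const hy
  exact h1.mono fun y' hy' => Gin h hy' i

theorem scale_mono {g : R3 → ℝ} {K K' r : ℝ} (h : Scale g K r) (hr : 0 < r) (hK : K ≤ K') :
    Scale g K' r where
  sm := h.sm
  cs := h.cs
  d1 := fun i y => (h.d1 i y).trans hK
  d2 := fun i j y => (h.d2 i j y).trans (div_le_div_of_nonneg_right hK hr.le)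
  d3 := fun i j l y => (h.d3 i j l y).trans (div_le_div_of_nonneg_right hK (by positivity))
  d4 := fun i j l m y => (h.d4 i j l m y).trans (div_le_div_of_nonneg_right hK (by positivity))

theorem nr_lt {M : ℕ} {X : Fin M → R3} {d L : ℝ} (hd1 : d ≤ 1) (hL : 1 ≤ L)
    (hX : ∀ j, 2 * nr (X j) + 4 ≤ L) {y : R3} {j : Fin M} (hy : nr (y - X j) ≤ d / 2) :
    nr y < L := by
  have h1 := pgb_tri y 0 (X j)
  rw [sub_zero, sub_zero, VIR_sym (X j) y] at h1
  have h2 := hX j
  linarith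

theorem gq_split {M : ℕ} {X : Fin M → R3} {d L : ℝ} {m : Fin 3} {G A : R3 → ℝ}
    (hd0 : 0 < d) (hd1 : d ≤ 1) (hL : 1 ≤ L) (hX : ∀ j, 2 * nr (X j) + 4 ≤ L)
    (hG : ContDiff ℝ (⊤ : ℕ∞) G) (hA : ContDiff ℝ (⊤ : ℕ∞) A)
    (hGl : ∀ y, nr y ≤ L → G y = y m)
    (hAo : ∀ y, (∀ j, d / 4 < nr (y - X j)) → ∀ i, pd i A y = 0) (y : R3) (i : Fin 3) :
    gq (fun z => G z - A z) y i = gq G y i + gq A y i - pd i (pd m A) y := by
  show ∑ l, pd l (pd i (fun z => G z - A z)) y * pd l (fun z => G z - A z) y =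
    ∑ l, pd l (pd i G) y * pd l G y + ∑ l, pd l (pd i A) y * pd l A y - pd i (pd m A) y
  simp only [pd_pd_sub hG hA, Helper20.HV.pd_sub hG hA]
  by_cases hy : ∀ j, d / 4 < nr (y - X j)
  · have h1 := hAo y hy
    have h2 := fun l i => out2 hAo hy l i
    simp only [h1, h2]
    simp
  · push Not at hy
    obtain ⟨j, hj⟩ := hy
    have h3 : nr y < L := nr_lt hd1 hL hX (j := j) (by linarith)
    have h4 := fun i => Gin hGl h3 i
    have h5 := fun l i => Gin2 hGl h3 l i
    rw [Helper20.HV.pd_comm hA i m y]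
    simp only [h4, h5]
    have h6 : ∀ l, (0 - pd l (pd i A) y) * ((if l = m then (1 : ℝ) else 0) - pd l A y) =
        pd l (pd i A) y * pd l A y - (if l = m then pd m (pd i A) y else 0) := by
      intro l
      split_ifs with h
      · subst h
        ring
      · ring
    rw [Finset.sum_congr rfl fun l _ => h6 l, Finset.sum_sub_distrib]
    simp

/-- the unscreened cross term as in UNS -/
theorem cross_uns {n M : ℕ} {X : Fin M → R3} {d L : ℝ} {m : Fin 3} {G A : R3 → ℝ}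
    (Z : Fin M → ℝ) (x : Cf n) (hS : Sep X d)
    (hd0 : 0 < d) (hd1 : d ≤ 1) (hL : 1 ≤ L) (hX : ∀ j, 2 * nr (X j) + 4 ≤ L)
    (hGl : ∀ y, nr y ≤ L → G y = y m)
    (hAo : ∀ y, (∀ j, d / 4 < nr (y - X j)) → ∀ i, pd i A y = 0) :
    ∑ k, ∑ j, Z j * (if nr (x k - X j) ≤ d / 2 then 0 else
      Tq (x k - X j) (gv G (x k)) (gv A (x k))) =
    ∑ i, ∑ k, (if nr (x k - X i) ≤ d / 2 then
      (∑ j, if j = i then 0 else Z j * Tq (x k - X j) (Pi.single m 1) (gv A (x k))) else 0) := by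
  rw [Finset.sum_comm (s := (Finset.univ : Finset (Fin M)))]
  refine Finset.sum_congr rfl fun k _ => ?_
  by_cases hk : ∀ i, d / 2 < nr (x k - X i)
  · have hA0 : gv A (x k) = 0 := by
      funext i
      exact hAo (x k) (fun j => by have := hk j; linarith) i
    have hT : ∀ v ξ : R3, Tq ξ v 0 = 0 := by
      intro v ξ
      unfold Tq
      simp
    simp [hA0, hT]
  · push Not at hk
    obtain ⟨i, hi⟩ := hk
    have hoth : ∀ j, j ≠ i → ¬ (nr (x k - X j) ≤ d / 2) := by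
      intro j hj h
      have h1 := hS j i hj
      have h2 := pgb_tri (X j) (X i) (x k)
      linarith
    have hGk : gv G (x k) = Pi.single m 1 := by
      funext l
      rw [Pi.single_apply]
      exact Gin hGl (nr_lt hd1 hL hX hi) l
    have hr : ∑ i', (if nr (x k - X i') ≤ d / 2 then
        (∑ j, if j = i' then 0 else Z j * Tq (x k - X j) (Pi.single m 1) (gv A (x k))) else 0) =
        ∑ j, (if j = i then 0 else Z j * Tq (x k - X j) (Pi.single m 1) (gv A (x k))) := by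
      rw [Finset.sum_eq_single i (fun j _ hj => by rw [if_neg (hoth j hj)])
        (fun h => absurd (Finset.mem_univ _) h), if_pos hi]
    rw [hr]
    refine Finset.sum_congr rfl fun j _ => ?_
    by_cases hj : j = i
    · subst hj
      rw [if_pos hi, if_pos rfl, mul_zero]
    · rw [if_neg (hoth j hj), if_neg hj, hGk]

/-- V2R0 from its parts -/
theorem V2R0_of (hV : ST_V2I) (hVL : Pool.Agent.Helper71.HV.ST_VL)
    (hPE : Pool.Agent.Helper71.HV.ST_PE) (hNE : ST_NE0) (hKK : ST_KK) (hF : ST_FLD)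
    (hC : ST_CUT) (hU : ST_UNS) : ST_V2R0 := by
  intro d hd hd1
  obtain ⟨K1, hK1, c1, -⟩ := hC
  obtain ⟨K2, hK2, f2⟩ := hF
  set K : ℝ := max K1 K2 with hKdef
  have hK : 1 ≤ K := le_max_of_le_left hK1
  have hK0 : 0 ≤ K := by linarith
  have hρ : 0 < d / 8 := by positivity
  have hρ1 : d / 8 ≤ 1 := by linarith
  have hρ2 : (d / 8) ^ 2 ≤ d / 8 := by nlinarith
  set A0 : ℝ := K / (d / 8) ^ 2 with hA0def
  have hA0 : 1 ≤ A0 := by
    rw [hA0def, le_div_iff₀ (by positivity)]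
    linarith
  have hA1 : K / (d / 8) ≤ A0 := div_le_div_of_nonneg_left hK0 (by positivity) hρ2
  obtain ⟨CI, hCI, kI⟩ := hV d hd hd1
  obtain ⟨CV, hCV, kV⟩ := hVL d hd hd1 A0 hA0
  obtain ⟨CP, hCP, kP⟩ := hPE
  obtain ⟨CE, hCE, kE⟩ := hNE d hd hd1
  obtain ⟨CU, hCU, kU⟩ := hU d hd hd1
  refine ⟨CI * K ^ 2 / (d / 8) ^ 2 + CE + 6 * (CU * K ^ 2) + 12 * CV +
    3 * (CP * K ^ 2 / (d / 8)), by positivity, ?_⟩
  intro z L n M X Z x hdat hL hX hD
  have hL0 : 0 < L := by linarith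
  have hS := hdat.sep
  have hz : 0 ≤ z := by linarith [hdat.z1]
  have hZ0 : ∀ j, 0 ≤ Z j := hdat.nuc.1
  have fl := fun m => f2 M X d (d / 8) (d / 8) m hd hS hρ le_rfl (by linarith)
  have sA : ∀ m, Scale (gN X m (d / 8)) K (d / 8) := fun m =>
    scale_mono (fl m).1 hρ (le_max_right _ _)
  have sG : ∀ m, Scale (gm m L) K L := fun m => scale_mono (c1 m L hL0).1 hL0 (le_max_left _ _)
  have hGl : ∀ m y, nr y ≤ L → gm m L y = y m := fun m => (c1 m L hL0).2.1
  have hin : ∀ m j y, nr (y - X j) < d / 8 → ∀ i,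
      pd i (gN X m (d / 8)) y = if i = m then 1 else 0 := fun m => (fl m).2.2.1
  have hout : ∀ m y, (∀ j, d / 4 < nr (y - X j)) → ∀ i, pd i (gN X m (d / 8)) y = 0 :=
    fun m y hy i => (fl m).2.2.2.1 y (fun j => by have := hy j; linarith) i
  have hR : 0 ≤ Rem (d / 8) x := by
    unfold Rem
    refine Finset.sum_nonneg fun k _ => Finset.sum_nonneg fun l _ => ?_
    split_ifs with h
    · have := (hKK (d / 8) (x k - x l) (by positivity)).2.1 (hD.1 k l h.ne)
      linarith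
    · exact le_rfl
  have hDn := VIR_Dn (d / 8) X Z x
  have hN1 : 0 ≤ ∑ k, near1 X d (x k) :=
    Finset.sum_nonneg fun k _ => Pool.Agent.Helper94.HV.near1_nonneg X d (x k)
  have hLoc1 : z ^ 2 * M ≤ Loc d z X Z x := by
    unfold Loc
    have := mul_nonneg hz hN1
    linarith
  have hnM : (n : ℝ) ≤ z * M := by
    have h1 : ∑ j, Z j ≤ ∑ _j : Fin M, z := Finset.sum_le_sum fun j _ => hdat.le j
    rw [hdat.nuc.2] at h1
    simp only [Finset.sum_const, Finset.card_univ, Fintype.card_fin, nsmul_eq_mul] at h1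
    linarith
  have hzn : z * n ≤ Loc d z X Z x := by
    have := mul_le_mul_of_nonneg_left hnM hz
    linarith [this, (by ring : z * (z * (M : ℝ)) = z ^ 2 * M)]
  have hLoc0 : 0 ≤ Loc d z X Z x := le_trans (by positivity) hLoc1
  set Lc := Loc d z X Z x with hLc
  have p1 : ∑ m, D2 X Z (gN X m (d / 8)) x ≤ CI * K ^ 2 / (d / 8) ^ 2 * Lc :=
    kI z K (d / 8) n M X Z (fun m => gN X m (d / 8)) x hdat hK hρ (by linarith) sA hin
      (fun m y hy i => hout m y (fun j => by have := hy j; linarith) i) hD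
  have p2 : ∀ m, Vir X Z (pd m (gN X m (d / 8))) x ≤ CV * (Lc + z * n) := by
    intro m
    refine kV z n M X Z _ x hdat (poe_pd_cd (sA m).sm m)
      (fun i y hy => out2 (hout m) (fun j => by have := hy j; linarith) i m)
      (fun i y => ((sA m).d2 i m y).trans hA1) (fun i l y => (sA m).d3 i l m y)
      (fun j y hy i => in2 (hin m j) hy i m) hD
  have p3 : ∀ m, (∑ k, ∑ l, if k < l then s1 (gm m L) (gN X m (d / 8)) x k l else 0) ≤
      CP * K ^ 2 / (d / 8 * L) * rep x := by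
    intro m
    unfold rep
    rw [Finset.mul_sum]
    refine Finset.sum_le_sum fun k _ => ?_
    rw [Finset.mul_sum]
    refine Finset.sum_le_sum fun l _ => ?_
    split_ifs with hkl
    · have h1 := kP K L (d / 8) (gm m L) (gN X m (d / 8)) (x k) (x l) hK hL hρ hρ1 (sG m) (sA m)
        (hD.1 k l hkl.ne)
      refine le_trans ?_ h1
      unfold s1
      have t1 := le_abs_self (Tq (x k - x l) (gv (gm m L) (x k) - gv (gm m L) (x l))
        (gv (gm m L) (x k) - gv (gm m L) (x l)))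
      have t2 := neg_abs_le (Tq (x k - x l) (gv (gm m L) (x k) - gv (gm m L) (x l))
        (gv (gN X m (d / 8)) (x k) - gv (gN X m (d / 8)) (x l)))
      have t3 := neg_abs_le ((∑ i, (gq (gm m L) (x k) i - gq (gm m L) (x l) i) *
        (x k i - x l i)) / nr (x k - x l) ^ 3)
      linarith
    · simp
  have p4 : ∑ k, ∑ m, ∑ j, Z j * ((∑ i, gq (gm m L) (x k) i * (x k i - X j i)) /
      nr (x k - X j) ^ 3 - Tq (x k - X j) (gv (gm m L) (x k)) (gv (gm m L) (x k)) +
      2 * (if nr (x k - X j) ≤ d / 2 then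
        Tq (x k - X j) (gv (gm m L) (x k)) (gv (gN X m (d / 8)) (x k)) else 0)) ≤
      CE * (z * n) + CE / L * ∑ k, pot X Z (x k) := by
    refine (Finset.sum_le_sum fun k _ =>
      kE z L n M X Z (x k) hdat hL hX (fun j => hD.2 k j)).trans ?_
    simp only [Finset.sum_add_distrib, ← Finset.mul_sum]
    simp only [Finset.sum_const, Finset.card_univ, Fintype.card_fin, nsmul_eq_mul]
    linarith
  have p5 : ∀ m, ∑ k, ∑ j, Z j * (if nr (x k - X j) ≤ d / 2 then 0 else
      Tq (x k - X j) (gv (gm m L) (x k)) (gv (gN X m (d / 8)) (x k))) ≤ CU * K ^ 2 * Lc := by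
    intro m
    rw [cross_uns Z x hS hd hd1 hL hX (hGl m) (hout m)]
    refine (abs_le.1 (kU z K n M X Z x (Pi.single m 1)
      (fun k => gv (gN X m (d / 8)) (x k)) hdat hD hDn hR hK ?_ ?_ ?_)).2
    · intro i
      rw [Pi.single_apply]
      split_ifs <;> simp
    · intro k i
      exact (sA m).d1 i (x k)
    · intro k hk
      funext i
      exact hout m (x k) (fun j => by have := hk j; linarith) i
  have p6 : ∀ m, D2 X Z (fun y => gm m L y - gN X m (d / 8) y) x =
      D2 X Z (gN X m (d / 8)) x + 2 * Vir X Z (pd m (gN X m (d / 8))) x +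
      (∑ k, ∑ l, if k < l then s1 (gm m L) (gN X m (d / 8)) x k l else 0) +
      (∑ k, ∑ j, Z j * ((∑ i, gq (gm m L) (x k) i * (x k i - X j i)) /
      nr (x k - X j) ^ 3 - Tq (x k - X j) (gv (gm m L) (x k)) (gv (gm m L) (x k)) +
      2 * (if nr (x k - X j) ≤ d / 2 then
        Tq (x k - X j) (gv (gm m L) (x k)) (gv (gN X m (d / 8)) (x k)) else 0))) +
      2 * ∑ k, ∑ j, Z j * (if nr (x k - X j) ≤ d / 2 then 0 else
        Tq (x k - X j) (gv (gm m L) (x k)) (gv (gN X m (d / 8)) (x k))) := by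
    intro m
    rw [D2_split X Z (g := fun y => gm m L y - gN X m (d / 8) y) (a := gm m L)
      (b := gN X m (d / 8)) (β := pd m (gN X m (d / 8)))
      (fun y i => Helper20.HV.pd_sub (sG m).sm (sA m).sm i y)
      (fun y i => gq_split hd hd1 hL hX (sG m).sm (sA m).sm (hGl m) (hout m) y i) x]
    have e1 : ∑ k, ∑ j, Z j * s2 X (gm m L) (gN X m (d / 8)) x k j =
      (∑ k, ∑ j, Z j * ((∑ i, gq (gm m L) (x k) i * (x k i - X j i)) /
      nr (x k - X j) ^ 3 - Tq (x k - X j) (gv (gm m L) (x k)) (gv (gm m L) (x k)) +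
      2 * (if nr (x k - X j) ≤ d / 2 then
        Tq (x k - X j) (gv (gm m L) (x k)) (gv (gN X m (d / 8)) (x k)) else 0))) +
      2 * ∑ k, ∑ j, Z j * (if nr (x k - X j) ≤ d / 2 then 0 else
        Tq (x k - X j) (gv (gm m L) (x k)) (gv (gN X m (d / 8)) (x k))) := by
      rw [Finset.mul_sum, ← Finset.sum_add_distrib]
      refine Finset.sum_congr rfl fun k _ => ?_
      rw [Finset.mul_sum, ← Finset.sum_add_distrib]
      refine Finset.sum_congr rfl fun j _ => ?_
      unfold s2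
      split_ifs <;> ring
    rw [e1]
    ring
  have p7 : ∑ m, D2 X Z (fun y => gm m L y - gN X m (d / 8) y) x ≤
      CI * K ^ 2 / (d / 8) ^ 2 * Lc + 6 * (CV * (Lc + z * n)) +
      3 * (CP * K ^ 2 / (d / 8 * L) * rep x) +
      (CE * (z * n) + CE / L * ∑ k, pot X Z (x k)) + 6 * (CU * K ^ 2 * Lc) := by
    rw [Finset.sum_congr rfl fun m _ => p6 m]
    rw [Finset.sum_comm] at p4
    simp only [Finset.sum_add_distrib, ← Finset.mul_sum] at p4 ⊢
    have s2' := Finset.sum_le_sum fun m (_ : m ∈ (Finset.univ : Finset (Fin 3))) => p2 m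
    have s3' := Finset.sum_le_sum fun m (_ : m ∈ (Finset.univ : Finset (Fin 3))) => p3 m
    have s5' := Finset.sum_le_sum fun m (_ : m ∈ (Finset.univ : Finset (Fin 3))) => p5 m
    simp only [Finset.sum_const, Finset.card_univ, Fintype.card_fin, nsmul_eq_mul] at s2' s3' s5'
    push_cast at s2' s3' s5'
    linarith
  refine p7.trans ?_
  have hrep : 0 ≤ rep x := by
    unfold rep
    refine Finset.sum_nonneg fun k _ => Finset.sum_nonneg fun l _ => ?_
    split_ifs
    · exact div_nonneg zero_le_one (VIR_nr0 _)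
    · exact le_rfl
  have hpot : 0 ≤ ∑ k, pot X Z (x k) := by
    refine Finset.sum_nonneg fun k _ => ?_
    unfold pot
    exact Finset.sum_nonneg fun j _ => div_nonneg (hZ0 j) (VIR_nr0 _)
  have e2 : CP * K ^ 2 / (d / 8 * L) * rep x = (CP * K ^ 2 / (d / 8)) / L * rep x := by
    rw [div_div]
  rw [e2]
  set a1 := CI * K ^ 2 / (d / 8) ^ 2 with ha1
  set a2 := CP * K ^ 2 / (d / 8) with ha2
  set a3 := CU * K ^ 2 with ha3
  have n1 : 0 ≤ a1 := by positivity
  have n2 : 0 ≤ a2 := by positivity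
  have n3 : 0 ≤ a3 := by positivity
  have r1 : 0 ≤ rep x / L := div_nonneg hrep hL0.le
  have r2 : 0 ≤ (∑ k, pot X Z (x k)) / L := div_nonneg hpot hL0.le
  have e3 : (a1 + CE + 6 * a3 + 12 * CV + 3 * a2) / L * (rep x + ∑ k, pot X Z (x k)) =
      (a1 + CE + 6 * a3 + 12 * CV + 3 * a2) * (rep x / L) +
      (a1 + CE + 6 * a3 + 12 * CV + 3 * a2) * ((∑ k, pot X Z (x k)) / L) := by
    field_simp
  have e4 : a2 / L * rep x = a2 * (rep x / L) := by
    field_simp
  have e5 : CE / L * ∑ k, pot X Z (x k) = CE * ((∑ k, pot X Z (x k)) / L) := by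
    field_simp
  rw [e3, e4, e5]
  have w1 : 3 * a2 * (rep x / L) ≤ (a1 + CE + 6 * a3 + 12 * CV + 3 * a2) * (rep x / L) :=
    mul_le_mul_of_nonneg_right (by linarith) r1
  have w2 : CE * ((∑ k, pot X Z (x k)) / L) ≤
      (a1 + CE + 6 * a3 + 12 * CV + 3 * a2) * ((∑ k, pot X Z (x k)) / L) :=
    mul_le_mul_of_nonneg_right (by linarith) r2
  have w3 := mul_le_mul_of_nonneg_left hzn hCE.le
  have w4 := mul_le_mul_of_nonneg_left hzn hCV.le
  have w5 : 0 ≤ 3 * a2 * Lc := by positivity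
  linarith

end Pool.Agent.Helper94.HW
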